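import Pool.Agent.Helper10.CR.Goals1

/-!
# Project CR (MP_ca5fc5_al): packet RSH (scheme of conditions for relational structures => filter)
-/

set_option autoImplicit false

universe u

namespace Pool.Agent.Helper56.CR

open Pool.Agent.Helper10.Width Pool.Agent.Helper72.Width Pool.Agent.Helper78.SD
open Pool.Agent.Helper10.CR

theorem goalRSH : GoalRSH.{u} := by
  intro hE hK k _ N P hP hS
  obtain ⟨S, instS, T, e, X, j, hD, hSm, hj, he, h5, h6, h7⟩ := hK k N P hP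
  choose χ hχe hχ using h5
  have hm : ∀ (φ : RF k N) (Y : Mods T) (y : Y.1),
      y ∈ (χ φ).sol Y.1 ↔ ∃ v, v ∈ φ.sol (X Y).1 ∧ j Y v = y := by
    intro φ Y y
    constructor
    · intro hy
      obtain ⟨v, rfl⟩ := (he Y y).1 (hχe φ Y hy)
      exact ⟨v, (hχ φ Y v).1 hy, rfl⟩
    · rintro ⟨v, hv, rfl⟩
      exact (hχ φ Y v).2 hv
  have key : ∀ φ ψ : RF k N, toD P φ ≤ toD P ψ ↔ toL T (χ φ) ≤ toL T (χ ψ) := by
    intro φ ψ
    rw [toD_le, toL_le]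
    constructor
    · intro h Y y hy
      obtain ⟨v, hv, rfl⟩ := (hm φ Y y).1 hy
      exact (hχ ψ Y v).2 (h (X Y) hv)
    · intro h X'
      obtain ⟨Y, hY⟩ := h7 X'
      refine hY φ ψ fun v hv => ?_
      exact (hχ ψ Y v).1 (h Y ((hχ φ Y v).2 hv))
  have toL_ext : ∀ θ θ' : PP S, (∀ (Y : Mods T) (y : Y.1), y ∈ θ.sol Y.1 ↔ y ∈ θ'.sol Y.1) →
      toL T θ = toL T θ' := fun θ θ' h =>
    le_antisymm ((toL_le T).2 fun Y y hy => (h Y y).1 hy) ((toL_le T).2 fun Y y hy => (h Y y).2 hy)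
  have hinf : ∀ φ ψ : RF k N, toL T (χ (φ.inf ψ)) = toL T (χ φ) ⊓ toL T (χ ψ) := by
    intro φ ψ
    rw [← toL_inf]
    refine toL_ext _ _ fun Y y => ?_
    rw [hm, PP.sol_inf, AddSubgroup.mem_inf, hm, hm]
    constructor
    · rintro ⟨v, hv, rfl⟩
      rw [RF.sol_inf, Submodule.mem_inf] at hv
      exact ⟨⟨v, hv.1, rfl⟩, ⟨v, hv.2, rfl⟩⟩
    · rintro ⟨⟨v, hv, rfl⟩, ⟨v', hv', hvv⟩⟩
      have e1 : v' = v := hj Y hvv
      subst e1
      refine ⟨v', ?_, rfl⟩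
      rw [RF.sol_inf, Submodule.mem_inf]
      exact ⟨hv, hv'⟩
  have hsup : ∀ φ ψ : RF k N, toL T (χ (φ.sup ψ)) = toL T (χ φ) ⊔ toL T (χ ψ) := by
    intro φ ψ
    rw [← toL_sup]
    refine toL_ext _ _ fun Y y => ?_
    rw [hm, PP.sol_sup, AddSubgroup.mem_sup]
    constructor
    · rintro ⟨v, hv, rfl⟩
      rw [RF.sol_sup, Submodule.mem_sup] at hv
      obtain ⟨v1, hv1, v2, hv2, rfl⟩ := hv
      exact ⟨j Y v1, (hχ φ Y v1).2 hv1, j Y v2, (hχ ψ Y v2).2 hv2, (map_add _ _ _).symm⟩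
    · rintro ⟨y1, hy1, y2, hy2, rfl⟩
      obtain ⟨v1, hv1, rfl⟩ := (hm φ Y y1).1 hy1
      obtain ⟨v2, hv2, rfl⟩ := (hm ψ Y y2).1 hy2
      refine ⟨v1 + v2, ?_, map_add _ _ _⟩
      rw [RF.sol_sup, Submodule.mem_sup]
      exact ⟨v1, hv1, v2, hv2, rfl⟩
  have hle : ∀ φ : RF k N, toL T (χ φ) ≤ toL T e := fun φ => (toL_le T).2 (hχe φ)
  have hback : ∀ x : ppLattice T, ∃ φ : RF k N, toL T (χ φ) = x ⊓ toL T e := by
    intro x
    obtain ⟨θ, rfl⟩ := toL_surjective T x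
    obtain ⟨φ, hφ⟩ := h6 (θ.inf e)
    refine ⟨φ, ?_⟩
    rw [← toL_inf]
    refine toL_ext _ _ fun Y y => ?_
    rw [hm]
    constructor
    · rintro ⟨v, hv, rfl⟩
      exact (hφ Y v).1 hv
    · intro hy
      have hy' := hy
      rw [PP.sol_inf, AddSubgroup.mem_inf] at hy'
      obtain ⟨v, rfl⟩ := (he Y y).1 hy'.2
      exact ⟨v, (hφ Y v).2 hy, rfl⟩
  obtain ⟨Φ, Ψ, hΦ⟩ := hS
  choose φ hφ using fun s => toD_surjective P (Φ s)
  choose ψ hψ using fun s => toD_surjective P (Ψ s)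
  have hsch : Scheme (fun s => toL T (χ (φ s))) (fun s => toL T (χ (ψ s))) := by
    refine ⟨fun s => ?_, fun i s => ?_, fun i s => ?_, fun i s => ?_⟩
    · have h := hΦ.lt s
      rw [← hφ, ← hψ, lt_iff_le_not_ge, key, key] at h
      exact lt_iff_le_not_ge.2 h
    · have h := hΦ.phi_le i s
      rw [← hφ, ← hφ, key] at h
      exact h
    · have h := hΦ.psi_le i s
      rw [← hψ, ← hψ, key] at h
      exact h
    · have h := hΦ.cap i s
      rw [← hφ, ← hφ, ← hψ, ← toD_inf, key, hinf] at h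
      exact h
  obtain ⟨p, hp, ⟨x0, hx0⟩, hNo, hep⟩ := hE S hD T hSm (fun s => χ (φ s)) (fun s => χ (ψ s)) hsch e
    (hle _)
  have hmem : ∀ φ : RF k N,
      toD P φ ∈ {x : DLat P | ∃ φ, x = toD P φ ∧ toL T (χ φ) ∈ p} ↔ toL T (χ φ) ∈ p := by
    intro φ
    constructor
    · rintro ⟨φ', h, h'⟩
      exact hp.up h' ((key φ' φ).1 h.ge)
    · intro h
      exact ⟨φ, rfl, h⟩
  refine ⟨{x : DLat P | ∃ φ, x = toD P φ ∧ toL T (χ φ) ∈ p}, ⟨?_, ?_, ?_⟩, ?_, ?_⟩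
  · refine ⟨toD P (RF.top k N), (hmem _).2 (hp.up hep ((toL_le T).2 fun Y y hy => ?_))⟩
    rw [hm]
    obtain ⟨v, rfl⟩ := (he Y y).1 hy
    refine ⟨v, ?_, rfl⟩
    rw [RF.sol_top]
    exact Submodule.mem_top
  · intro a b ha hab
    obtain ⟨α, rfl⟩ := toD_surjective P a
    obtain ⟨β, rfl⟩ := toD_surjective P b
    exact (hmem β).2 (hp.up ((hmem α).1 ha) ((key α β).1 hab))
  · intro a b ha hb
    obtain ⟨α, rfl⟩ := toD_surjective P a
    obtain ⟨β, rfl⟩ := toD_surjective P b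
    rw [← toD_inf, hmem, hinf]
    exact hp.inf ((hmem α).1 ha) ((hmem β).1 hb)
  · refine ⟨toD P (RF.bot k N), fun h => hx0 ?_⟩
    refine hp.up ((hmem _).1 h) ?_
    obtain ⟨θ, rfl⟩ := toL_surjective T x0
    refine (toL_le T).2 fun Y y hy => ?_
    obtain ⟨v, hv, rfl⟩ := (hm _ Y y).1 hy
    rw [RF.sol_bot, Submodule.mem_bot] at hv
    rw [hv, map_zero]
    exact zero_mem _
  · intro x hx
    obtain ⟨α, rfl⟩ := toD_surjective P x
    rw [hmem] at hx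
    obtain ⟨x1, x2, h1, h2, h3, h4, h8⟩ := hNo _ hx
    obtain ⟨φ1, e1⟩ := hback x1
    obtain ⟨φ2, e2⟩ := hback x2
    refine ⟨toD P φ1, toD P φ2, ?_, ?_, ?_, ?_, ?_⟩
    · rw [key, e1]
      exact le_inf h1 (hle _)
    · rw [key, e2]
      exact le_inf h2 (hle _)
    · rw [hmem, e1]
      exact fun h => h3 (hp.up h inf_le_left)
    · rw [hmem, e2]
      exact fun h => h4 (hp.up h inf_le_left)
    · intro σ hσ
      obtain ⟨τ, rfl⟩ := toD_surjective P σ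
      rw [hmem] at hσ
      rw [← toD_inf, ← toD_inf, ← toD_sup, hmem, hsup, hinf, hinf, e1, e2]
      refine hp.up (h8 _ hσ) (sup_le_sup ?_ ?_)
      · exact le_inf inf_le_left (le_inf inf_le_right (inf_le_left.trans (hle τ)))
      · exact le_inf inf_le_left (le_inf inf_le_right (inf_le_left.trans (hle τ)))

end Pool.Agent.Helper56.CR
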